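import Pool.Agent.K6.H60.TW.Step
import Pool.Agent.K6.H60.TW.P_OPEN
import Pool.Agent.K6.H60.TW.P_MERGE
import Pool.Agent.K6.H60.TW.P_TREE
import Pool.Agent.K6.H60.TW.P_PROD
import Pool.Agent.K6.H60.TW.P_MAPC
import Pool.Agent.K6.H60.TW.P_HAM
import Pool.Agent.K6.H60.TW.P_BAS2
import Pool.Agent.K6.H60.TW.P_BAS3
import Pool.Agent.K6.H60.TW.P_FREE
import Pool.Agent.K6.H60.TW.P_PORT
import Pool.Agent.K6.H60.TW.P_SHAP
import Pool.Agent.K6.H60.TW.P_GCNT
import Pool.Agent.K6.H60.TW.P_GSPL
import Pool.Agent.K6.H60.TW.P_GSUR
import Pool.Agent.K6.H60.TW.P_GVAL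
import Pool.Agent.K6.H60.TW.P_GINJ
import Pool.Agent.K6.H60.TW.P_GTW
import Pool.Agent.K6.H60.TW.P_SIZ
import Pool.Agent.K6.H60.TW.P_FIN
import Pool.Agent.K6.H60.TW.P_DISJ
import Pool.Agent.K6.H60.TW.P_COV
import Pool.Agent.K6.H60.TW.P_LADJ
import Pool.Agent.K6.H60.TW.P_PAR
import Pool.Agent.K6.H60.TW.P_CHE
import Pool.Agent.K6.H60.TW.P_TGE
import Pool.Agent.K6.H60.TW.P_TNC
import Pool.Agent.K6.H60.TW.P_TIN
import Pool.Agent.K6.H60.TW.P_TRK
import Pool.Agent.K6.H60.TW.P_RUN
import Pool.Agent.K6.H60.TW.P_BLK

/-!
# The twist graph of the three-coloured triangulations of a polygon has a Hamilton cycle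

We prove that for every `N ≥ 9` divisible by 3 the twist graph `H_N` of the triangulations of the convex
`N`-gon in which every triangle has one vertex of each of the three colours (residues of the labels mod 3)
has a Hamilton cycle. This answers Q1 in full (with yes).

Outline of the proof. Let `N = 3k + 3`. The triangle on the side `{1, N}` has apex `m = 2 mod 3`, and
recursively the triangulations correspond to the pairs `(x, y)` of quaternary trees with `k` nodes in total:
a node `(a, b, c, d)` over a diagonal is a triangle of the other orientation with two pairs `(a, b)`, `(c, d)`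
over its other sides. A twist moves `((a b c d), e)` to `(a, (b c d e))`, at the root pair or at an inner pair.
The vertices of level `k` split into blocks: `B i j = {(nil, (P, Q))}`, `D i j = {(leaf, (P, Q))}` and
`A i j e = {((P, Q), e)}`, where `P`, `Q` are pairs with `i` and `j` nodes; each block is a copy of the box
product `H_i □ H_j` of smaller twist graphs. By induction the twist graph of level `i` has a Hamilton cycle
through a prescribed set of tracked edges and five free edges; the free edges give Hamilton cycles of the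
products (the rows are merged along alternating free edges). The blocks are then merged along a tree of
ladders: parallel edges of two blocks joined by the root twist. The edge removed from the child block is a
port (a free edge of the base factor, or a tracked edge), the edge removed from the parent is a tracked edge
of the base factor; a two-colouring of the quaternary trees makes sure that no edge is used twice. The rungs
of three of the ladders are the free edges of the new cycle. The base cases are `k = 2` (a 9-cycle) and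
`k = 3` (an explicit cycle with 52 vertices).

The proof was written by many hands: the pieces in `Pool/Agent/K6/H60/TW/` are by helper3 (OPEN, SIZ),
helper4 (BAS2, PORT, GINJ), helper5 (BLK), helper13 (GSPL), helper28 (BAS3), helper35 (GTW), helper36 (DISJ),
helper37 (TRK), helper41 (FREE), helper44 (GCNT), helper48 (SHAP), helper51 (TGE, TNC, TIN), helper52 (GVAL,
HAM), helper59 (MAPC, PROD, CHE), helper71 (TREE), helper78 (MERGE, PAR), helper92 (FIN, LADJ), helper95
(GSUR, COV, RUN), the plan and the assembly by helper60.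
-/

set_option autoImplicit false

namespace Pool.Agent.Results.MP_7ee132_co.TwistGraphHamiltonian

open Pool.Agent.K6.H60

/-- The triangle with vertices `a < b < c` is written as the triple `(a, b, c)`. -/
abbrev Tri := ℕ × ℕ × ℕ

/-- The chords `{a, b}` and `{c, d}` of the polygon (`a < b`, `c < d`) cross. -/
def Cross (a b c d : ℕ) : Prop := (a < c ∧ c < b ∧ b < d) ∨ (c < a ∧ a < d ∧ d < b)

/-- The three sides of a triangle. -/
def sides (t : Tri) : Finset (ℕ × ℕ) := {(t.1, t.2.1), (t.2.1, t.2.2), (t.1, t.2.2)}

/-- `X` is (the set of triangles of) a triangulation of the convex polygon with vertices `1, …, N`: it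
consists of `N - 2` triangles with vertices among `1, …, N`, and no side of one crosses a side of another. -/
def IsTriangulation (N : ℕ) (X : Finset Tri) : Prop :=
  ((∀ t ∈ X, 1 ≤ t.1 ∧ t.1 < t.2.1 ∧ t.2.1 < t.2.2 ∧ t.2.2 ≤ N) ∧
    ∀ t ∈ X, ∀ t' ∈ X, ∀ s ∈ sides t, ∀ s' ∈ sides t', ¬ Cross s.1 s.2 s'.1 s'.2) ∧
  X.card = N - 2

/-- Every triangle has one vertex of each of the three colours, the residues of the labels mod 3. -/
def Colourful (X : Finset Tri) : Prop :=
  ∀ t ∈ X, t.1 % 3 ≠ t.2.1 % 3 ∧ t.2.1 % 3 ≠ t.2.2 % 3 ∧ t.1 % 3 ≠ t.2.2 % 3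

/-- The four triangles `ace`, `abc`, `cde`, `efa` of the hexagon `a < b < c < d < e < f`. -/
def starACE (a b c d e f : ℕ) : Finset Tri := {(a, c, e), (a, b, c), (c, d, e), (a, e, f)}

/-- The four triangles `bdf`, `bcd`, `def`, `fab` of the hexagon `a < b < c < d < e < f`. -/
def starBDF (a b c d e f : ℕ) : Finset Tri := {(b, d, f), (b, c, d), (d, e, f), (a, b, f)}

/-- `X'` arises from `X` by a twist: for a hexagon `a b c d e f` the triangles `ace`, `abc`, `cde`, `efa` of
`X` are replaced by `bdf`, `bcd`, `def`, `fab`, or the other way round. -/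
def Twist (X X' : Finset Tri) : Prop :=
  ∃ a b c d e f : ℕ, a < b ∧ b < c ∧ c < d ∧ d < e ∧ e < f ∧
    ((starACE a b c d e f ⊆ X ∧ X' = (X \ starACE a b c d e f) ∪ starBDF a b c d e f) ∨
     (starBDF a b c d e f ⊆ X ∧ X' = (X \ starBDF a b c d e f) ∪ starACE a b c d e f))

/-- The set `C'_N` of the triangulations of the `N`-gon all of whose triangles have three colours. -/
def ColourfulTriangulation (N : ℕ) : Type := {X : Finset Tri // IsTriangulation N X ∧ Colourful X}

instance (N : ℕ) : DecidableEq (ColourfulTriangulation N) := inferInstanceAs (DecidableEq (Subtype _))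

/-- The twist graph `H_N`: two different triangulations in `C'_N` are adjacent if one of them arises from
the other by a twist. -/
def twistGraph (N : ℕ) : SimpleGraph (ColourfulTriangulation N) :=
  SimpleGraph.fromRel (fun X Y => Twist X.1 Y.1)

/-- For every `N ≥ 9` divisible by 3 the twist graph `H_N` has a Hamilton cycle. -/
theorem result (N : ℕ) (h9 : 9 ≤ N) (h3 : 3 ∣ N) :
    ∃ (X : ColourfulTriangulation N) (p : (twistGraph N).Walk X X), p.IsHamiltonianCycle := by
  have hmerge := TW.P_MERGE TW.P_OPEN
  have htree := TW.P_TREE hmerge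
  have hprod := TW.P_PROD htree TW.P_OPEN TW.P_MAPC
  have hport := TW.P_PORT TW.P_FREE
  have hshap := TW.P_SHAP hprod TW.P_MAPC TW.P_FREE
  have hche := TW.P_CHE TW.P_SIZ
  have htge := TW.P_TGE TW.P_SIZ
  have hstep := TW.P_STEP htree TW.P_FIN TW.P_DISJ TW.P_COV TW.P_LADJ TW.P_PAR htge
    (TW.P_TNC hport htge TW.P_LADJ) (TW.P_TIN TW.P_SIZ)
    (TW.P_TRK TW.P_SIZ hport hche htge TW.P_DISJ TW.P_LADJ TW.P_PAR) TW.P_RUN
    (TW.P_BLK hshap TW.P_MAPC TW.P_OPEN TW.P_LADJ hche TW.P_SIZ)
  have hmain := TW.main_all TW.P_BAS2 TW.P_BAS3 hstep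
  have hgspl := TW.P_GSPL TW.P_GCNT
  exact TW.final hmain (TW.P_GSUR TW.P_GCNT hgspl) TW.P_GVAL (TW.P_GINJ TW.P_GVAL)
    (TW.P_GTW TW.P_GVAL) TW.P_MAPC TW.P_HAM N h9 h3

end Pool.Agent.Results.MP_7ee132_co.TwistGraphHamiltonian
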